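import Mathlib
import Pool.Agent.H798.BV.Stm
import Pool.Agent.H798.BV.Stm5
import Pool.Agent.H798.BV.Stm7

set_option autoImplicit false

/-!
# MP_f0bc87_an: (L2) from (L2a), (GAI)
-/

open MeasureTheory Set Filter Topology

namespace Pool.Agent.H364.BV

open Pool.Agent.H798.BV

/-- Gaussian tails are small. -/
theorem tail_small {b : ℝ} (hb : 0 < b) {δ : ℝ} (hδ : 0 < δ) :
    ∀ᶠ X : ℝ in atTop, ∫ x in Ioi X, Real.exp (-b * x ^ 2) ≤ δ := by
  have h := tendsto_integral_Ioi_zero (μ := volume) (f := fun x : ℝ => Real.exp (-b * x ^ 2))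
    (tendsto_id (α := ℝ) (x := atTop))
  exact h.eventually (ge_mem_nhds hδ)

/-- The size of the model. -/
theorem norm_model (σ : ℂ) (hσ : 0 ≤ σ.re) (x : ℝ) (hx : 0 ≤ x) :
    ‖Complex.exp (-((x : ℂ) * σ) - (x : ℂ) ^ 2 / 2)‖ ≤ Real.exp (-(1 / 2) * x ^ 2) := by
  rw [Complex.norm_exp]
  apply Real.exp_le_exp.2
  have h2 : ((x : ℂ) ^ 2 / 2) = ((x ^ 2 / 2 : ℝ) : ℂ) := by push_cast; ring
  rw [h2, Complex.sub_re, Complex.neg_re, Complex.re_ofReal_mul, Complex.ofReal_re]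
  have := mul_nonneg hx hσ
  linarith

/-- Comparison of the integrals. -/
theorem compare (F : ℝ → ℂ) (hF : Continuous F) (σ : ℂ) (hσ : 0 ≤ σ.re) (C₀ c₀ X T η d : ℝ)
    (hc₀ : 0 < c₀) (hC₀ : 0 < C₀) (hX : 0 ≤ X) (hXT : X ≤ T)
    (h1 : ∀ x : ℝ, 0 ≤ x → x ≤ X →
      ‖F x - Complex.exp (-((x : ℂ) * σ) - (x : ℂ) ^ 2 / 2)‖ ≤ η)
    (h2 : ∀ x : ℝ, X ≤ x → x ≤ T → ‖F x‖ ≤ C₀ * Real.exp (-c₀ * x ^ 2))
    (h3 : C₀ * ∫ x in Ioi X, Real.exp (-c₀ * x ^ 2) ≤ d)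
    (h4 : ∫ x in Ioi X, Real.exp (-(1 / 2) * x ^ 2) ≤ d) :
    ‖∫ x in Ioi (0:ℝ), Complex.exp (-((x : ℂ) * σ) - (x : ℂ) ^ 2 / 2)‖ ≤
      ‖∫ x in (0:ℝ)..T, F x‖ + X * η + 2 * d := by
  obtain ⟨E, hE⟩ : ∃ E : ℝ → ℂ, E = fun x : ℝ =>
    Complex.exp (-((x : ℂ) * σ) - (x : ℂ) ^ 2 / 2) := ⟨_, rfl⟩
  have hEc : Continuous E := by rw [hE]; fun_prop
  have ig : Integrable fun x : ℝ => Real.exp (-(1 / 2) * x ^ 2) :=
    integrable_exp_neg_mul_sq (by norm_num)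
  have ic : Integrable fun x : ℝ => Real.exp (-c₀ * x ^ 2) := integrable_exp_neg_mul_sq hc₀
  have hEn : ∀ x : ℝ, 0 ≤ x → ‖E x‖ ≤ Real.exp (-(1 / 2) * x ^ 2) := by
    intro x hx
    rw [hE]
    exact norm_model σ hσ x hx
  have iE : IntegrableOn E (Ioi 0) := by
    refine Integrable.mono' ig.integrableOn hEc.aestronglyMeasurable ?_
    refine (ae_restrict_iff' measurableSet_Ioi).2 (Eventually.of_forall fun x hx => ?_)
    exact hEn x (le_of_lt hx)
  have iEX : IntegrableOn E (Ioi X) := iE.mono_set (Ioi_subset_Ioi hX)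
  have e1 : ∫ x in Ioi (0:ℝ), E x = (∫ x in (0:ℝ)..X, E x) + ∫ x in Ioi X, E x :=
    (intervalIntegral.integral_interval_add_Ioi iE iEX).symm
  have e2 : (∫ x in (0:ℝ)..X, F x) + ∫ x in X..T, F x = ∫ x in (0:ℝ)..T, F x :=
    intervalIntegral.integral_add_adjacent_intervals (hF.intervalIntegrable _ _)
      (hF.intervalIntegrable _ _)
  have e3 : ∫ x in (0:ℝ)..X, (F x - E x) = (∫ x in (0:ℝ)..X, F x) - ∫ x in (0:ℝ)..X, E x :=
    intervalIntegral.integral_sub (hF.intervalIntegrable _ _) (hEc.intervalIntegrable _ _)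
  have b1 : ‖∫ x in (0:ℝ)..X, (F x - E x)‖ ≤ X * η := by
    have h := intervalIntegral.norm_integral_le_of_norm_le_const (a := (0:ℝ)) (b := X)
      (f := fun x => F x - E x) (C := η) (fun x hx => by
        rw [uIoc_of_le hX] at hx
        have := h1 x hx.1.le hx.2
        rw [hE]
        exact this)
    rw [sub_zero, abs_of_nonneg hX] at h
    linarith
  have b2 : ‖∫ x in X..T, F x‖ ≤ d := by
    refine le_trans ?_ h3
    rw [← integral_const_mul]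
    calc ‖∫ x in X..T, F x‖ ≤ ∫ x in X..T, C₀ * Real.exp (-c₀ * x ^ 2) := by
          refine intervalIntegral.norm_integral_le_of_norm_le hXT ?_
            ((ic.const_mul C₀).intervalIntegrable)
          exact Eventually.of_forall fun x hx => h2 x hx.1.le hx.2
      _ = ∫ x in Ioc X T, C₀ * Real.exp (-c₀ * x ^ 2) := intervalIntegral.integral_of_le hXT
      _ ≤ ∫ x in Ioi X, C₀ * Real.exp (-c₀ * x ^ 2) := by
          refine setIntegral_mono_set (ic.const_mul C₀).integrableOn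
            (Eventually.of_forall fun x => (mul_pos hC₀ (Real.exp_pos _)).le)
            (Ioc_subset_Ioi_self).eventuallyLE
  have b3 : ‖∫ x in Ioi X, E x‖ ≤ d := by
    refine le_trans ?_ h4
    refine norm_integral_le_of_norm_le ig.integrableOn ?_
    refine (ae_restrict_iff' measurableSet_Ioi).2 (Eventually.of_forall fun x hx => ?_)
    exact hEn x (hX.trans (le_of_lt hx))
  have e4 : ∫ x in Ioi (0:ℝ), E x = (∫ x in (0:ℝ)..T, F x) - (∫ x in (0:ℝ)..X, (F x - E x)) -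
      (∫ x in X..T, F x) + ∫ x in Ioi X, E x := by
    rw [e1, e3, ← e2]
    ring
  have e5 : ∫ x in Ioi (0:ℝ), Complex.exp (-((x : ℂ) * σ) - (x : ℂ) ^ 2 / 2) =
      ∫ x in Ioi (0:ℝ), E x := by rw [hE]
  rw [e5, e4]
  calc _ ≤ ‖(∫ x in (0:ℝ)..T, F x) - (∫ x in (0:ℝ)..X, (F x - E x)) - (∫ x in X..T, F x)‖ +
        ‖∫ x in Ioi X, E x‖ := norm_add_le _ _
    _ ≤ (‖(∫ x in (0:ℝ)..T, F x) - (∫ x in (0:ℝ)..X, (F x - E x))‖ + ‖∫ x in X..T, F x‖) +
        ‖∫ x in Ioi X, E x‖ := by gcongr; exact norm_sub_le _ _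
    _ ≤ ((‖∫ x in (0:ℝ)..T, F x‖ + ‖∫ x in (0:ℝ)..X, (F x - E x)‖) + ‖∫ x in X..T, F x‖) +
        ‖∫ x in Ioi X, E x‖ := by gcongr; exact norm_sub_le _ _
    _ ≤ _ := by linarith

/-- (L2) from (L2a), (GAI). -/
theorem t_L2 (h1 : S_L2a) (h2 : S_GAI) : S_L2 := by
  intro C₀ c₀ L K hC₀ hc₀ hL hK
  obtain ⟨c₁, hc₁, hG⟩ := h2 K hK
  -- the choice of `X`
  have hev := (tail_small hc₀ (δ := c₁ / 4 / C₀) (by positivity)).and
    ((tail_small (b := 1 / 2) (by norm_num) (δ := c₁ / 4) (by positivity)).and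
      (eventually_ge_atTop (1:ℝ)))
  obtain ⟨X, hX1, hX2, hX3⟩ := hev.exists
  have hX0 : 0 < X := by linarith
  obtain ⟨ε, M, hε, hM, h⟩ := h1 X (c₁ / (4 * X)) L hX0 (by positivity) hL
  refine ⟨ε, c₁ / 4, max M (X ^ 2), hε, by positivity, le_max_of_le_left hM, ?_⟩
  intro m l a hMm ha hma hl hgauss hre hKs hbig hy
  have hm1 : (1:ℝ) ≤ m := hM.trans ((le_max_left _ _).trans hMm)
  have hm0 : (0:ℝ) < m := by linarith
  have hsm : 0 < Real.sqrt m := Real.sqrt_pos.2 hm0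
  have hsq : Real.sqrt m ^ 2 = m := Real.sq_sqrt hm0.le
  obtain ⟨s, hs⟩ : ∃ s : ℂ, s = (∑ k, l k) / m := ⟨_, rfl⟩
  rw [← hs] at hre hKs
  obtain ⟨σ, hσ⟩ : ∃ σ : ℂ, σ = (Real.sqrt m : ℂ) * s := ⟨_, rfl⟩
  have hσre : 0 ≤ σ.re := by
    rw [hσ, Complex.re_ofReal_mul]
    exact mul_nonneg hsm.le hre
  have hσn : ‖σ‖ ≤ K := by
    rw [hσ, norm_mul, Complex.norm_real, Real.norm_of_nonneg hsm.le]
    exact hKs
  -- the lower bound of the model
  have hlow : c₁ ≤ ‖∫ x in Ioi (0:ℝ), Complex.exp (-((x : ℂ) * σ) - (x : ℂ) ^ 2 / 2)‖ := by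
    have := hG m l ∅ σ 0 le_rfl one_pos hσre hσn (by simp)
    simpa using this
  obtain ⟨F, hF⟩ : ∃ F : ℝ → ℂ, F = fun x : ℝ => ∏ k, (1 - ((x / Real.sqrt m : ℝ) : ℂ) * l k) :=
    ⟨_, rfl⟩
  have hFc : Continuous F := by
    rw [hF]
    refine continuous_finsetProd _ fun k _ => ?_
    refine continuous_const.sub (Continuous.mul ?_ continuous_const)
    exact Complex.continuous_ofReal.comp (continuous_id.div_const _)
  have hXT : X ≤ Real.sqrt m * a := by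
    refine abs_le_of_sq_le_sq' ?_ (by positivity) |>.2
    rw [mul_pow, hsq]
    exact (le_max_right _ _).trans hma
  have hcmp := compare F hFc σ hσre C₀ c₀ X (Real.sqrt m * a) (c₁ / (4 * X)) (c₁ / 4) hc₀ hC₀
    hX0.le hXT (fun x hx0 hx => by
      have := h m l ((le_max_left _ _).trans hMm) hl (by rw [← hs]; exact hre) hbig hy x hx0 hx
      rw [← hs, ← hσ] at this
      rw [hF]
      exact this)
    (fun x hx hxT => by
      have hx0 : 0 ≤ x := hX0.le.trans hx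
      have h5 := hgauss (x / Real.sqrt m) (by positivity) (by
        rw [div_le_iff₀ hsm]
        linarith)
      rw [hF]
      refine h5.trans (le_of_eq ?_)
      congr 2
      rw [div_pow, hsq]
      field_simp)
    (by
      have := mul_le_mul_of_nonneg_left hX1 hC₀.le
      refine this.trans (le_of_eq ?_)
      field_simp)
    (by simpa using hX2)
  have hsub : ∫ x in (0:ℝ)..(Real.sqrt m * a), F x =
      (Real.sqrt m : ℂ) * ∫ u in (0:ℝ)..a, ∏ k, (1 - (u : ℂ) * l k) := by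
    have h6 := intervalIntegral.integral_comp_div (a := (0:ℝ)) (b := Real.sqrt m * a)
      (fun u : ℝ => ∏ k, (1 - (u : ℂ) * l k)) hsm.ne'
    rw [hF]
    rw [h6, zero_div, mul_div_cancel_left₀ _ hsm.ne', Complex.real_smul]
  rw [hsub, norm_mul, Complex.norm_real, Real.norm_of_nonneg hsm.le] at hcmp
  have hXη : X * (c₁ / (4 * X)) = c₁ / 4 := by field_simp
  rw [hXη] at hcmp
  linarith

end Pool.Agent.H364.BV
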